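import Pool.Agent.Helper69.PC.Rev3

open Filter Topology MeasureTheory FourierTransform Set
open scoped SchwartzMap
open Pool.Agent.Helper57.PC Pool.Agent.Helper57.Zeta Pool.Agent.Helper69.PC

namespace Pool.Agent.Results.MP_8958e8_nt.OneSmoothWindow

/-- The smoothed pair sum: the sum of `f((γ₁-γ₂) log T/(2π))` over all ordered pairs of
ordinates in [0,T], counted with multiplicity, diagonal pairs included. -/
noncomputable def smoothPairSum (T : ℝ) (f : ℝ → ℝ) : ℝ :=
  ∑ᶠ p ∈ {p : ℂ × ℂ | p.1 ∈ zerosUpTo T ∧ p.2 ∈ zerosUpTo T},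
    (mult p.1 : ℝ) * (mult p.2 : ℝ) * f ((p.1.im - p.2.im) * Real.log T / (2 * Real.pi))

/-- The autocorrelation `x ↦ ∫ k(y) k(y+x) dy` of a Schwartz function. -/
noncomputable def autocorrelation (k : 𝓢(ℝ, ℝ)) (x : ℝ) : ℝ := ∫ y, k y * k (y + x)

lemma smoothPairSum_eq (T : ℝ) (f : ℝ → ℝ) : smoothPairSum T f = PS (Zf T) mr (xp T) f := by
  classical
  unfold smoothPairSum PS
  rw [finsum_mem_eq_sum_of_inter_support_eq (t := Zf T ×ˢ Zf T), Finset.sum_product]
  · apply Finset.sum_congr rfl; intro i _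
    apply Finset.sum_congr rfl; intro j _
    unfold mr xp
    congr 2
    ring
  · ext p
    simp only [mem_inter_iff, mem_ofPred_eq, Finset.coe_product, mem_prod, Finset.mem_coe]
    constructor
    · rintro ⟨⟨h1, h2⟩, h3⟩
      exact ⟨⟨mem_Zf.mpr h1, mem_Zf.mpr h2⟩, h3⟩
    · rintro ⟨⟨h1, h2⟩, h3⟩
      exact ⟨⟨mem_Zf.mp h1, mem_Zf.mp h2⟩, h3⟩

/-- One smooth window and one-sided bounds characterise pair correlation. Let `k ≥ 0` be a
Schwartz function whose Fourier transform never vanishes and `g` its autocorrelation. Along any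
countably generated filter `l ≤ atTop` and for any dense set `D` containing 0: for every `v ∈ D`
the pair sum of `g(·-v)` (diagonal included) is asymptotically at most its conjectured value, if
and only if the asymptotic formula of Q1 holds for all `0 < α < β` and the normalised number of
near-diagonal pairs is asymptotically at most 1. -/
theorem result
    (k : 𝓢(ℝ, ℝ)) (hk : ∀ x, 0 ≤ k x) (hF : ∀ ξ : ℝ, 𝓕 (fun x : ℝ => (k x : ℂ)) ξ ≠ 0)
    (l : Filter ℝ) [l.IsCountablyGenerated] (hl : l ≤ atTop)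
    (D : Set ℝ) (hD : Dense D) (hD0 : (0 : ℝ) ∈ D) :
    (∀ v ∈ D, ∀ δ : ℝ, 0 < δ → ∀ᶠ T : ℝ in l,
      smoothPairSum T (fun u => autocorrelation k (u - v)) ≤
        (autocorrelation k v + (∫ u, pcDensity u * autocorrelation k (u - v)) + δ) *
          (T * Real.log T / (2 * Real.pi))) ↔
    ((∀ α β : ℝ, 0 < α → α < β → Tendsto
      (fun T : ℝ => pairCount T α β / (T * Real.log T / (2 * Real.pi))) l
      (𝓝 (∫ u in α..β, pcDensity u))) ∧
    (∀ δ : ℝ, 0 < δ → ∃ ε : ℝ, 0 < ε ∧ ∀ᶠ T : ℝ in l,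
      pairCount T (-ε) ε ≤ (1 + δ) * (T * Real.log T / (2 * Real.pi)))) := by
  have hF' : ∀ ξ, 𝓕 (kC k) ξ ≠ 0 := by
    intro ξ
    rw [SchwartzMap.fourier_coe]
    have : (⇑(kC k) : ℝ → ℂ) = fun x : ℝ => (k x : ℂ) := funext fun x => kC_apply k x
    rw [this]
    exact hF ξ
  have hk0 : 0 < ∫ x, k x := by
    have h0 : 0 ≤ ∫ x, k x := integral_nonneg hk
    rcases h0.lt_or_eq with h | h
    · exact h
    · exfalso
      apply hF 0
      rw [Real.fourier_eq]
      simp only [inner_zero_right, neg_zero, AddChar.map_zero_eq_one, one_smul]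
      rw [integral_complex_ofReal, ← h]
      simp
  constructor
  · intro hU
    have hyp : Hyp k l := by
      apply hyp_of_dense k hk hk0 hl hD hD0
      intro v hv δ hδ
      filter_upwards [hU v hv δ hδ, hl (eventually_gt_atTop 1)] with T h1 h2
      rw [smoothPairSum_eq] at h1
      unfold SS GG
      rw [div_le_iff₀ (SN_pos h2)]
      exact h1
    exact ⟨fun α β hα hαβ => window_conv k hk hk0 hF' hl hyp hα hαβ,
      HD_of_hyp k hk hk0 hF' hl hyp⟩
  · rintro ⟨hW, hDg⟩ v _ δ hδ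
    filter_upwards [hyp_of_windows k hl hW hDg v δ hδ, hl (eventually_gt_atTop 1)] with T h1 h2
    rw [smoothPairSum_eq]
    unfold SS GG at h1
    rw [div_le_iff₀ (SN_pos h2)] at h1
    exact h1

end Pool.Agent.Results.MP_8958e8_nt.OneSmoothWindow
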