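import Pool.Agent.Helper90.VS.Defs

/-!
# Logarithmic potentials of bounded plane sets (R4a, R4b of MP_539ca6_an)

The logarithmic potential of a bounded measurable set of the plane is differentiable, its gradient
is given by the Cauchy transform, and the Cauchy transform is continuous.
-/

open MeasureTheory Set Filter Topology

namespace Pool.Agent.Helper69.VSPot

open Pool.Agent.Helper90.VS

noncomputable section

/-- regularised logarithm -/
def Lr (e : ℝ) (z : ℂ) : ℝ := (1 / 2) * Real.log (‖z‖ ^ 2 + e ^ 2)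

/-- regularised Cauchy kernel -/
def Kr (e : ℝ) (z : ℂ) : ℂ := (starRingEnd ℂ) z * (((‖z‖ ^ 2 + e ^ 2)⁻¹ : ℝ) : ℂ)

/-- the error -/
def gr (e r : ℝ) : ℝ := e ^ 2 / (r * (r ^ 2 + e ^ 2))

/-- `A w h = Re (w h)` -/
def AA : ℂ →L[ℝ] (ℂ →L[ℝ] ℝ) :=
  (ContinuousLinearMap.compL ℝ ℂ ℂ ℝ Complex.reCLM).comp (ContinuousLinearMap.mul ℝ ℂ)

lemma AA_apply (w h : ℂ) : AA w h = (w * h).re := rfl

lemma AA_eq (w : ℂ) : AA w = Complex.reCLM.comp (ContinuousLinearMap.mul ℝ ℂ w) := rfl

lemma gr_radial (e : ℝ) (he : 0 < e) (y : ℝ) (hy : 0 < y) :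
    y ^ (Module.finrank ℝ ℂ - 1) • gr e y = (1 + (y / e) ^ 2)⁻¹ := by
  rw [Complex.finrank_real_complex]
  simp only [gr, smul_eq_mul]
  field_simp
  ring

lemma gr_integrable (e : ℝ) (he : 0 < e) : Integrable (fun z : ℂ => gr e ‖z‖) := by
  rw [integrable_fun_norm_addHaar volume (f := gr e)]
  have h := (integrable_inv_one_add_sq.comp_div he.ne').integrableOn (s := Ioi (0 : ℝ))
  refine h.congr_fun (fun y hy => ?_) measurableSet_Ioi
  exact (gr_radial e he y hy).symm

lemma gr_integral_le (e : ℝ) (he : 0 < e) :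
    ∫ z : ℂ, gr e ‖z‖ ≤ (2 * volume.real (Metric.ball (0 : ℂ) 1) * Real.pi) * e := by
  rw [integral_fun_norm_addHaar volume (gr e)]
  have h1 : ∫ y in Ioi (0 : ℝ), y ^ (Module.finrank ℝ ℂ - 1) • gr e y
      = ∫ y in Ioi (0 : ℝ), (1 + (y / e) ^ 2)⁻¹ :=
    setIntegral_congr_fun measurableSet_Ioi (fun y hy => gr_radial e he y hy)
  rw [h1]
  have h2 : ∫ y in Ioi (0 : ℝ), (1 + (y / e) ^ 2)⁻¹ ≤ ∫ y : ℝ, (1 + (y / e) ^ 2)⁻¹ := by
    apply setIntegral_le_integral (integrable_inv_one_add_sq.comp_div he.ne')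
    filter_upwards with y
    positivity
  have h3 : ∫ y : ℝ, (1 + (y / e) ^ 2)⁻¹ = e * Real.pi := by
    have := MeasureTheory.Measure.integral_comp_div (fun x : ℝ => (1 + x ^ 2)⁻¹) e
    rw [this, integral_univ_inv_one_add_sq, abs_of_pos he, smul_eq_mul]
  rw [h3] at h2
  rw [Complex.finrank_real_complex]
  simp only [nsmul_eq_mul, smul_eq_mul]
  push_cast
  have h4 : 0 ≤ volume.real (Metric.ball (0 : ℂ) 1) := measureReal_nonneg
  calc 2 * (volume.real (Metric.ball (0 : ℂ) 1) * ∫ y in Ioi (0 : ℝ), (1 + (y / e) ^ 2)⁻¹)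
      ≤ 2 * (volume.real (Metric.ball (0 : ℂ) 1) * (e * Real.pi)) := by gcongr
    _ = _ := by ring

lemma Kr_sub (e : ℝ) (he : 0 < e) (z : ℂ) : ‖Kr e z - z⁻¹‖ = gr e ‖z‖ := by
  by_cases hz : z = 0
  · subst hz; simp [Kr, gr]
  · have hn : 0 < ‖z‖ := norm_pos_iff.mpr hz
    rw [Complex.inv_def, Complex.normSq_eq_norm_sq]
    simp only [Kr]
    rw [← mul_sub, ← Complex.ofReal_sub, norm_mul, RCLike.norm_conj, Complex.norm_real,
      Real.norm_eq_abs]
    have : (‖z‖ ^ 2 + e ^ 2)⁻¹ - (‖z‖ ^ 2)⁻¹ = - (e ^ 2 / (‖z‖ ^ 2 * (‖z‖ ^ 2 + e ^ 2))) := by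
      field_simp
      ring
    rw [this, abs_neg, abs_of_nonneg (by positivity), gr]
    field_simp

lemma Kr_continuous (e : ℝ) (he : 0 < e) : Continuous (Kr e) := by
  unfold Kr
  refine Complex.continuous_conj.mul (Complex.continuous_ofReal.comp ?_)
  refine Continuous.inv₀ (by fun_prop) (fun z => ?_)
  positivity

lemma Kr_bound (e : ℝ) (he : 0 < e) (z : ℂ) : ‖Kr e z‖ ≤ 1 / e := by
  simp only [Kr]
  rw [norm_mul, RCLike.norm_conj, Complex.norm_real, Real.norm_eq_abs,
    abs_of_nonneg (by positivity), ← div_eq_mul_inv, div_le_div_iff₀ (by positivity) he]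
  nlinarith [sq_nonneg (‖z‖ - e), norm_nonneg z, sq_nonneg ‖z‖]

lemma Lr_hasFDerivAt (e : ℝ) (he : 0 < e) (z : ℂ) : HasFDerivAt (Lr e) (AA (Kr e z)) z := by
  have h1 : HasFDerivAt (fun x : ℂ => ‖x‖ ^ 2) (2 • (innerSL ℝ z)) z :=
    (hasStrictFDerivAt_norm_sq z).hasFDerivAt
  have h2 : HasFDerivAt (fun x : ℂ => ‖x‖ ^ 2 + e ^ 2) (2 • (innerSL ℝ z)) z :=
    h1.add_const _
  have h3 := (h2.log (by positivity)).const_mul (1 / 2)
  refine h3.congr_fderiv ?_
  refine ContinuousLinearMap.ext (fun h => ?_)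
  rw [AA_apply]
  simp only [Kr, smul_apply, innerSL_apply_apply, smul_eq_mul, nsmul_eq_mul,
    Complex.inner, Complex.mul_re, Complex.mul_im, Complex.ofReal_re, Complex.ofReal_im,
    Complex.conj_re, Complex.conj_im]
  push_cast
  ring

lemma Lr_continuous (e : ℝ) (he : 0 < e) : Continuous (Lr e) := by
  rw [continuous_iff_continuousAt]
  exact fun z => (Lr_hasFDerivAt e he z).continuousAt

variable {D : Set ℂ}

lemma fin_restrict (hb : Bornology.IsBounded D) : IsFiniteMeasure (volume.restrict D) :=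
  ⟨by rw [Measure.restrict_apply_univ]; exact hb.measure_lt_top⟩

lemma gr_shift_integrable (e : ℝ) (he : 0 < e) (x : ℂ) :
    Integrable (fun y : ℂ => gr e ‖x - y‖) :=
  (gr_integrable e he).comp_sub_left x

lemma gr_nonneg (e : ℝ) (r : ℝ) (hr : 0 ≤ r) : 0 ≤ gr e r := by
  unfold gr; positivity

lemma Kr_integrable (hb : Bornology.IsBounded D) (e : ℝ) (he : 0 < e) (x : ℂ) :
    Integrable (fun y => Kr e (x - y)) (volume.restrict D) := by
  have := fin_restrict hb
  refine Integrable.mono' (integrable_const (1 / e)) ?_ ?_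
  · exact ((Kr_continuous e he).comp (continuous_const.sub continuous_id)).aestronglyMeasurable
  · filter_upwards with y using Kr_bound e he _

lemma inv_meas (x : ℂ) (μ : Measure ℂ) : AEStronglyMeasurable (fun y : ℂ => (x - y)⁻¹) μ :=
  ((measurable_const.sub measurable_id).inv).aestronglyMeasurable

lemma inv_integrable (hb : Bornology.IsBounded D) (x : ℂ) :
    Integrable (fun y => (x - y)⁻¹) (volume.restrict D) := by
  have h1 := Kr_integrable hb 1 one_pos x
  have h2 : Integrable (fun y => Kr 1 (x - y) - (x - y)⁻¹) (volume.restrict D) := by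
    refine Integrable.mono' (gr_shift_integrable 1 one_pos x).restrict ?_ ?_
    · exact h1.aestronglyMeasurable.sub (inv_meas x _)
    · filter_upwards with y
      rw [Kr_sub 1 one_pos]
  refine (h1.sub h2).congr ?_
  filter_upwards with y
  simp

/-- regularised Cauchy transform -/
def CTr (e : ℝ) (D : Set ℂ) (x : ℂ) : ℂ := ∫ y in D, Kr e (x - y)

lemma CTr_sub (hb : Bornology.IsBounded D) (e : ℝ) (he : 0 < e) (x : ℂ) :
    ‖CT D x - CTr e D x‖ ≤ (2 * volume.real (Metric.ball (0 : ℂ) 1) * Real.pi) * e := by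
  unfold CT CTr
  rw [← integral_sub (inv_integrable hb x) (Kr_integrable hb e he x)]
  calc ‖∫ y in D, ((x - y)⁻¹ - Kr e (x - y))‖ ≤ ∫ y in D, gr e ‖x - y‖ := by
        refine norm_integral_le_of_norm_le (gr_shift_integrable e he x).restrict ?_
        filter_upwards with y
        rw [norm_sub_rev, Kr_sub e he]
    _ ≤ ∫ y, gr e ‖x - y‖ := by
        refine setIntegral_le_integral (gr_shift_integrable e he x) ?_
        filter_upwards with y using gr_nonneg e _ (norm_nonneg _)
    _ = ∫ z : ℂ, gr e ‖z‖ := integral_sub_left_eq_self (fun z : ℂ => gr e ‖z‖) volume x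
    _ ≤ _ := gr_integral_le e he

lemma CTr_continuous (hb : Bornology.IsBounded D) (e : ℝ) (he : 0 < e) :
    Continuous (CTr e D) := by
  have := fin_restrict hb
  unfold CTr
  refine continuous_of_dominated (bound := fun _ => 1 / e) (fun x => ?_) (fun x => ?_)
    (integrable_const _) ?_
  · exact (Kr_integrable hb e he x).aestronglyMeasurable
  · filter_upwards with y using Kr_bound e he _
  · filter_upwards with y
    exact (Kr_continuous e he).comp (continuous_id.sub continuous_const)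

lemma CTr_tendsto (hb : Bornology.IsBounded D) :
    TendstoUniformly (fun (n : ℕ) => CTr (1 / ((n : ℝ) + 1)) D) (CT D) atTop := by
  rw [Metric.tendstoUniformly_iff]
  intro ε hε
  set C := 2 * volume.real (Metric.ball (0 : ℂ) 1) * Real.pi with hC
  have h : Tendsto (fun n : ℕ => C * (1 / ((n : ℝ) + 1))) atTop (𝓝 (C * 0)) :=
    tendsto_one_div_add_atTop_nhds_zero_nat.const_mul C
  rw [mul_zero] at h
  filter_upwards [h.eventually (gt_mem_nhds hε)] with n hn x
  rw [dist_eq_norm]
  exact (CTr_sub hb _ (by positivity) x).trans_lt hn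

theorem CT_continuous (D : Set ℂ) (_hD : MeasurableSet D) (hb : Bornology.IsBounded D) :
    Continuous (CT D) :=
  (CTr_tendsto hb).continuous (Frequently.of_forall
    (fun n => CTr_continuous hb _ (by positivity)))

/-- regularised potential -/
def potr (e : ℝ) (D : Set ℂ) (x : ℂ) : ℝ := ∫ y in D, Lr e (x - y)

lemma Lr_integrable (hb : Bornology.IsBounded D) (e : ℝ) (he : 0 < e) (x : ℂ) :
    Integrable (fun y => Lr e (x - y)) (volume.restrict D) := by
  have hc : Continuous (fun y => Lr e (x - y)) :=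
    (Lr_continuous e he).comp (continuous_const.sub continuous_id)
  have h1 : IntegrableOn (fun y => Lr e (x - y)) (closure D) :=
    hc.continuousOn.integrableOn_compact hb.isCompact_closure
  exact h1.mono_set subset_closure

lemma potr_hasFDerivAt (hb : Bornology.IsBounded D) (e : ℝ) (he : 0 < e) (x : ℂ) :
    HasFDerivAt (potr e D) (AA (CTr e D x)) x := by
  have := fin_restrict hb
  have h0 : AA (CTr e D x) = ∫ y in D, AA (Kr e (x - y)) :=
    (AA.integral_comp_comm (Kr_integrable hb e he x)).symm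
  rw [h0]
  unfold potr
  refine hasFDerivAt_integral_of_dominated_of_fderiv_le (s := univ)
    (F := fun x y => Lr e (x - y)) (F' := fun x y => AA (Kr e (x - y)))
    (bound := fun _ => ‖AA‖ * (1 / e)) univ_mem ?_ ?_ ?_ ?_ (integrable_const _) ?_
  · exact Eventually.of_forall (fun x => (Lr_integrable hb e he x).aestronglyMeasurable)
  · exact Lr_integrable hb e he x
  · exact AA.continuous.comp_aestronglyMeasurable (Kr_integrable hb e he x).aestronglyMeasurable
  · filter_upwards with y x _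
    exact (AA.le_opNorm _).trans (by gcongr; exact Kr_bound e he _)
  · filter_upwards with y x _
    have h1 := Lr_hasFDerivAt e he (x - y)
    have h2 : HasFDerivAt (fun x : ℂ => x - y) (ContinuousLinearMap.id ℝ ℂ) x :=
      (hasFDerivAt_id x).sub_const y
    have h3 := h1.comp x h2
    exact h3.congr_fderiv (by simp)

lemma Lr_sub (e : ℝ) (he : 0 < e) (z : ℂ) (hz : z ≠ 0) :
    |Lr e z - Real.log ‖z‖| ≤ e * ‖z⁻¹‖ := by
  have hn : 0 < ‖z‖ := norm_pos_iff.mpr hz
  have h1 : Lr e z - Real.log ‖z‖ = (1 / 2) * Real.log (1 + (e / ‖z‖) ^ 2) := by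
    have : ‖z‖ ^ 2 + e ^ 2 = ‖z‖ ^ 2 * (1 + (e / ‖z‖) ^ 2) := by field_simp
    rw [Lr, this, Real.log_mul (by positivity) (by positivity), Real.log_pow]
    push_cast; ring
  have h2 : Real.log (1 + (e / ‖z‖) ^ 2) ≤ 2 * (e / ‖z‖) := by
    have h3 : 1 + (e / ‖z‖) ^ 2 ≤ (1 + e / ‖z‖) ^ 2 := by
      have : 0 ≤ e / ‖z‖ := by positivity
      nlinarith
    calc Real.log (1 + (e / ‖z‖) ^ 2) ≤ Real.log ((1 + e / ‖z‖) ^ 2) :=
          Real.log_le_log (by positivity) h3
      _ = 2 * Real.log (1 + e / ‖z‖) := by rw [Real.log_pow]; push_cast; ring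
      _ ≤ 2 * (e / ‖z‖) := by
          have := Real.log_le_sub_one_of_pos (x := 1 + e / ‖z‖) (by positivity)
          linarith
  have h4 : 0 ≤ Real.log (1 + (e / ‖z‖) ^ 2) := Real.log_nonneg (by
    have : 0 ≤ (e / ‖z‖) ^ 2 := by positivity
    linarith)
  rw [h1, abs_of_nonneg (by positivity), norm_inv, ← div_eq_mul_inv]
  linarith

lemma ae_sub_ne (x : ℂ) (μ : Measure ℂ) [NullSingletonClass μ] : ∀ᵐ y ∂μ, x - y ≠ 0 := by
  have : ∀ᵐ y ∂μ, y ≠ x := by
    rw [ae_iff]
    simp
  filter_upwards [this] with y hy h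
  exact hy (sub_eq_zero.mp h).symm

lemma log_integrable (hb : Bornology.IsBounded D) (x : ℂ) :
    Integrable (fun y => Real.log ‖x - y‖) (volume.restrict D) := by
  have h1 := Lr_integrable hb 1 one_pos x
  have hm : AEStronglyMeasurable (fun y : ℂ => Real.log ‖x - y‖) (volume.restrict D) := by
    refine Measurable.aestronglyMeasurable ?_
    exact Real.measurable_log.comp (measurable_const.sub measurable_id).norm
  have h2 : Integrable (fun y => Lr 1 (x - y) - Real.log ‖x - y‖) (volume.restrict D) := by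
    refine Integrable.mono' ((inv_integrable hb x).norm.const_mul 1) ?_ ?_
    · exact h1.aestronglyMeasurable.sub hm
    · filter_upwards [ae_sub_ne x (volume.restrict D)] with y hy
      rw [Real.norm_eq_abs]
      exact Lr_sub 1 one_pos _ hy
  refine (h1.sub h2).congr ?_
  filter_upwards with y
  simp

lemma potr_sub (hb : Bornology.IsBounded D) (e : ℝ) (he : 0 < e) (x : ℂ) :
    ‖potr e D x - ∫ y in D, Real.log ‖x - y‖‖ ≤ e * ∫ y in D, ‖(x - y)⁻¹‖ := by
  unfold potr
  rw [← integral_sub (Lr_integrable hb e he x) (log_integrable hb x), ← integral_const_mul]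
  refine norm_integral_le_of_norm_le ((inv_integrable hb x).norm.const_mul e) ?_
  filter_upwards [ae_sub_ne x (volume.restrict D)] with y hy
  rw [Real.norm_eq_abs]
  exact Lr_sub e he _ hy

lemma potr_tendsto (hb : Bornology.IsBounded D) (x : ℂ) :
    Tendsto (fun n : ℕ => potr (1 / ((n : ℝ) + 1)) D x) atTop
      (𝓝 (∫ y in D, Real.log ‖x - y‖)) := by
  rw [tendsto_iff_norm_sub_tendsto_zero]
  have h : Tendsto (fun n : ℕ => (1 / ((n : ℝ) + 1)) * ∫ y in D, ‖(x - y)⁻¹‖) atTop
      (𝓝 (0 * ∫ y in D, ‖(x - y)⁻¹‖)) :=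
    tendsto_one_div_add_atTop_nhds_zero_nat.mul_const _
  rw [zero_mul] at h
  refine squeeze_zero (fun n => norm_nonneg _) (fun n => ?_) h
  exact potr_sub hb _ (by positivity) x

theorem pot_hasFDerivAt (D : Set ℂ) (_hD : MeasurableSet D) (hb : Bornology.IsBounded D) (x : ℂ) :
    HasFDerivAt (pot D)
      ((1 / (2 * Real.pi)) • Complex.reCLM.comp (ContinuousLinearMap.mul ℝ ℂ (CT D x))) x := by
  have h1 : HasFDerivAt (fun x => ∫ y in D, Real.log ‖x - y‖) (AA (CT D x)) x := by
    refine hasFDerivAt_of_tendstoUniformly (l := atTop) (f := fun n : ℕ => potr (1 / ((n : ℝ) + 1)) D)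
      (f' := fun (n : ℕ) x => AA (CTr (1 / ((n : ℝ) + 1)) D x)) (g' := fun x => AA (CT D x)) ?_ ?_ ?_ x
    · exact AA.uniformContinuous.comp_tendstoUniformly (CTr_tendsto hb)
    · exact fun n x => potr_hasFDerivAt hb _ (by positivity) x
    · exact fun x => potr_tendsto hb x
  exact h1.const_mul (1 / (2 * Real.pi))

end

end Pool.Agent.Helper69.VSPot
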